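import Pool.Agent.R123.Ace.Upper

/-!
# The linear upper bound for `S(n)`
-/

set_option autoImplicit false

open scoped ENNReal NNReal

namespace Pool.Agent.R123.Ace

variable {A B : Type}

theorem one_le_ACE (w : ℕ → A) : 1 ≤ ACE w := by
  refine Filter.le_limsup_of_frequently_le ?_
  apply Filter.Eventually.frequently
  rw [Filter.eventually_atTop]
  refine ⟨1, fun m hm => ?_⟩
  have h1 : IsPower (fac w 0 m) (fac w 0 m) := by
    refine ⟨?_, ?_⟩
    · intro h0
      have := congrArg List.length h0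
      rw [fac_length] at this
      simp at this
      omega
    · intro i hi
      rw [Nat.mod_eq_of_lt hi]
  have h2 := expo_le_iSup w 0 m _ h1
  rw [fac_length, ENNReal.div_self (by exact_mod_cast (show m ≠ 0 by omega))
    (ENNReal.natCast_ne_top _)] at h2
  exact h2

theorem ace_image_le_real [Nonempty B] [Fintype A] {f : A → List B} (h : InjMorphism f)
    (w : ℕ → A) (hw : ACE w ≠ ⊤) :
    ACE (image f w) ≤ Fintype.card A * (⌊(ACE w).toReal⌋₊ + 1 : ℕ) + 1 := by
  apply ace_image_le h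
  rw [← ENNReal.ofReal_toReal hw, ← ENNReal.ofReal_natCast]
  rw [ENNReal.ofReal_toReal hw]
  conv_lhs => rw [← ENNReal.ofReal_toReal hw]
  apply (ENNReal.ofReal_lt_ofReal_iff (by positivity)).2
  push_cast
  exact Nat.lt_floor_add_one _

theorem ace_image_le_mul [Nonempty B] [Fintype A] {f : A → List B} (h : InjMorphism f)
    (w : ℕ → A) (hw : ACE w ≠ ⊤) :
    ACE (image f w) ≤ (2 * Fintype.card A + 1) * ACE w := by
  have h1 := one_le_ACE w
  have h2 : ((⌊(ACE w).toReal⌋₊ + 1 : ℕ) : ℝ≥0∞) ≤ 2 * ACE w := by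
    have h3 : ((⌊(ACE w).toReal⌋₊ : ℕ) : ℝ≥0∞) ≤ ACE w := by
      conv_rhs => rw [← ENNReal.ofReal_toReal hw]
      rw [← ENNReal.ofReal_natCast]
      exact ENNReal.ofReal_le_ofReal (Nat.floor_le ENNReal.toReal_nonneg)
    push_cast
    rw [two_mul]
    exact add_le_add h3 h1
  calc ACE (image f w) ≤ Fintype.card A * (⌊(ACE w).toReal⌋₊ + 1 : ℕ) + 1 :=
        ace_image_le_real h w hw
    _ ≤ Fintype.card A * (2 * ACE w) + ACE w := add_le_add (mul_le_mul_right h2 _) h1
    _ = _ := by ring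

theorem S_le [Nonempty B] (n : ℕ) : S B n ≤ 2 * n + 1 := by
  unfold S
  refine iSup₂_le fun w hw => ?_
  apply ENNReal.div_le_of_le_mul
  unfold ACEinj
  refine iSup₂_le fun f hf => ?_
  have := ace_image_le_mul hf w hw
  rwa [Fintype.card_fin] at this

end Pool.Agent.R123.Ace
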