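import Pool.Agent.R123.Ace.Final
import Pool.Agent.R123.FivePow.Power

/-!
# The lower bound: the binary word
-/

set_option autoImplicit false

open scoped ENNReal NNReal

namespace Pool.Agent.R123.Ace.Low

/-- an infinite word over two letters without fifth powers -/
noncomputable def yy (n : ℕ) : Bool := FivePow.y n

theorem yy_two : yy 2 = true := by
  have := (FivePow.y_start 0).2.2.1
  rw [FivePow.P_zero] at this
  exact this

theorem yy_five (p : ℕ) (i : ℕ) (hp : 0 < p) :
    ∃ j, j < 4 * p ∧ yy (i + j) ≠ yy (i + p + j) := FivePow.five_free p i hp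

variable (k s : ℕ)

/-- where the block number `J` begins (in letters of the word over `k + 1` letters) -/
def Bl : ℕ → ℕ
  | 0 => 0
  | (J + 1) => Bl J + s * (k * (11 * (Bl J + 1)) + 1)

/-- the length of the used beginning of `yy` -/
def NN (J : ℕ) : ℕ := 11 * (Bl k s J + 1)

/-- the period of the block number `J` of the binary word -/
def qq (J : ℕ) : ℕ := k * NN k s J + 1

theorem Bl_succ (J : ℕ) : Bl k s (J + 1) = Bl k s J + s * qq k s J := rfl

theorem Bl_mono {J J' : ℕ} (h : J ≤ J') : Bl k s J ≤ Bl k s J' := by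
  induction J' with
  | zero => rw [Nat.le_zero.1 h]
  | succ J' ih =>
    rcases Nat.lt_or_ge J (J' + 1) with h1 | h1
    · rw [Bl_succ]
      exact (ih (by omega)).trans (Nat.le_add_right _ _)
    · rw [show J = J' + 1 by omega]

theorem le_Bl (hs : 0 < s) (J : ℕ) : J ≤ Bl k s J := by
  induction J with
  | zero => simp
  | succ J ih =>
    rw [Bl_succ]
    have : 0 < s * qq k s J := Nat.mul_pos hs (Nat.succ_pos _)
    omega

/-- the letter number `e` of the repeated word is one -/
def One (N e : ℕ) : Prop := k ∣ e ∧ e / k < N ∧ yy (e / k) = true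

theorem exists_Bl (hk : 0 < k) (hs : 0 < s) (x : ℕ) : ∃ J, x < k * Bl k s (J + 1) := by
  refine ⟨x, ?_⟩
  have h1 := le_Bl k s hs (x + 1)
  calc x < x + 1 := Nat.lt_succ_self x
    _ ≤ Bl k s (x + 1) := h1
    _ ≤ k * Bl k s (x + 1) := Nat.le_mul_of_pos_left _ hk

open Classical in
/-- the number of the block -/
noncomputable def idx (x : ℕ) : ℕ := if h : ∃ J, x < k * Bl k s (J + 1) then Nat.find h else 0

/-- the letter number `x` of the binary word is one -/
def Hb (x : ℕ) : Prop :=
  One k (NN k s (idx k s x)) ((x - k * Bl k s (idx k s x)) % qq k s (idx k s x))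

theorem idx_eq {J x : ℕ} (h1 : k * Bl k s J ≤ x) (h2 : x < k * Bl k s (J + 1)) :
    idx k s x = J := by
  classical
  have hex : ∃ J, x < k * Bl k s (J + 1) := ⟨J, h2⟩
  unfold idx
  rw [dif_pos hex, Nat.find_eq_iff]
  refine ⟨h2, fun J' hJ' hx => ?_⟩
  have := Nat.mul_le_mul_left k (Bl_mono k s (show J' + 1 ≤ J by omega))
  omega

theorem Hb_iff {J i : ℕ} (h : k * Bl k s J + i < k * Bl k s (J + 1)) :
    Hb k s (k * Bl k s J + i) ↔ One k (NN k s J) (i % qq k s J) := by
  unfold Hb
  rw [idx_eq k s (Nat.le_add_right _ _) h, Nat.add_sub_cancel_left]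

theorem exists_J (hk : 0 < k) (hs : 0 < s) (x : ℕ) :
    ∃ J, k * Bl k s J ≤ x ∧ x < k * Bl k s (J + 1) := by
  classical
  have hex := exists_Bl k s hk hs x
  refine ⟨Nat.find hex, ?_, Nat.find_spec hex⟩
  rcases Nat.eq_zero_or_pos (Nat.find hex) with h0 | h0
  · rw [h0]
    simp [Bl]
  · have := Nat.find_min hex (show Nat.find hex - 1 < Nat.find hex by omega)
    rw [Nat.sub_add_cancel h0] at this
    omega

variable {k s}

/-- ones are in multiples of `k` below `k N` -/
theorem One.lt {N e : ℕ} (hk : 0 < k) (h : One k N e) : e < k * N := by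
  obtain ⟨⟨a, rfl⟩, h2, -⟩ := h
  rw [Nat.mul_div_cancel_left a hk] at h2
  exact Nat.mul_lt_mul_of_pos_left h2 hk

theorem One.le {N e : ℕ} (hk : 0 < k) (h : One k N e) : e + k ≤ k * N := by
  have h1 := h.lt hk
  obtain ⟨⟨a, rfl⟩, -, -⟩ := h
  have h2 : a < N := lt_of_mul_lt_mul_left h1 (Nat.zero_le k)
  calc k * a + k = k * (a + 1) := by ring
    _ ≤ k * N := Nat.mul_le_mul_left k h2

theorem one_iff {N a : ℕ} (hk : 0 < k) (ha : a < N) : One k N (k * a) ↔ yy a = true := by
  unfold One
  rw [Nat.mul_div_cancel_left a hk]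
  constructor
  · exact fun h => h.2.2
  · exact fun h => ⟨Dvd.intro _ rfl, ha, h⟩

/-- two ones in an aligned block of length `k` coincide -/
theorem Hb_unique (hk : 0 < k) (hs : 0 < s) {n r r' : ℕ} (hr : r < k) (hr' : r' < k)
    (h : Hb k s (k * n + r)) (h' : Hb k s (k * n + r')) : r = r' := by
  wlog hrr : r ≤ r' generalizing r r'
  · exact (this hr' hr h' h (by omega)).symm
  by_contra hne
  obtain ⟨J, hJ1, hJ2⟩ := exists_J k s hk hs (k * n + r)
  have hn1 : Bl k s J ≤ n := by
    have h1 : k * Bl k s J < k * (n + 1) := by rw [Nat.mul_add, Nat.mul_one]; omega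
    exact Nat.le_of_lt_succ (lt_of_mul_lt_mul_left h1 (Nat.zero_le k))
  have hn2 : n < Bl k s (J + 1) := by
    have h1 : k * n < k * Bl k s (J + 1) := by omega
    exact lt_of_mul_lt_mul_left h1 (Nat.zero_le k)
  have hn3 : k * (n + 1) ≤ k * Bl k s (J + 1) := Nat.mul_le_mul_left k hn2
  rw [Nat.mul_add, Nat.mul_one] at hn3
  obtain ⟨m, rfl⟩ := Nat.exists_eq_add_of_le hn1
  rw [Nat.mul_add, Nat.add_assoc] at h h' hJ1 hJ2
  rw [Nat.mul_add] at hn3
  rw [Hb_iff k s (by omega)] at h h'
  have hlt := h.le hk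
  have hq : qq k s J = k * NN k s J + 1 := rfl
  set q := qq k s J with hqd
  have e1 : (k * m + r') % q = (k * m + r) % q + (r' - r) := by
    rw [show k * m + r' = (k * m + r) + (r' - r) by omega, Nat.add_mod]
    rw [Nat.mod_eq_of_lt (show r' - r < q by omega), Nat.mod_eq_of_lt (by omega)]
  have h1 := h.1
  have h2 := h'.1
  rw [e1] at h2
  have h3 := (Nat.dvd_add_right h1).1 h2
  have h4 := Nat.le_of_dvd (by omega) h3
  omega

/-- no eleventh powers with a small period -/
theorem claimA (hk : 0 < k) {J X p : ℕ} (hp : 0 < p)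
    (h1 : k * Bl k s J ≤ X) (h2 : X + 11 * (k * p) ≤ k * Bl k s (J + 1))
    (hper : ∀ x, X ≤ x → x + k * p < X + 11 * (k * p) → (Hb k s (x + k * p) ↔ Hb k s x)) :
    NN k s J < 11 * p := by
  by_contra hN
  push Not at hN
  obtain ⟨i0, rfl⟩ := Nat.exists_eq_add_of_le h1
  have hq : qq k s J = k * NN k s J + 1 := rfl
  set q := qq k s J with hqd
  set N := NN k s J with hNd
  have hkN : 11 * (k * p) ≤ k * N := by
    calc 11 * (k * p) = k * (11 * p) := by ring
      _ ≤ k * N := Nat.mul_le_mul_left k hN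
  have hkp : k ≤ k * p := Nat.le_mul_of_pos_right k hp
  have hH : ∀ i, i0 ≤ i → i < i0 + 11 * (k * p) →
      (Hb k s (k * Bl k s J + i) ↔ One k N (i % q)) := by
    intro i hi1 hi2
    exact Hb_iff k s (by omega)
  have key : ∀ c a, i0 ≤ c * q + k * a → c * q + k * a + 5 * (k * p) ≤ i0 + 11 * (k * p) →
      a + 5 * p ≤ N → False := by
    intro c a hc1 hc2 ha
    obtain ⟨j, hj, hne⟩ := yy_five p a hp
    apply hne
    have hj' : k * (j + 1) ≤ k * (4 * p) := Nat.mul_le_mul_left k hj
    have hj'' : k * (4 * p) = 4 * (k * p) := by ring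
    have hj3 : k * (j + 1) = k * j + k := by ring
    have hx : k * (a + j) = k * a + k * j := by ring
    have hx2 : k * (a + p + j) = k * a + k * j + k * p := by ring
    have hl : ∀ b, b < N → (c * q + k * b) % q = k * b := by
      intro b hb
      rw [Nat.add_comm, Nat.add_mul_mod_self_right, Nat.mod_eq_of_lt]
      have := Nat.mul_le_mul_left k (show b + 1 ≤ N from hb)
      rw [Nat.mul_add, Nat.mul_one] at this
      omega
    have g1 := hH (c * q + k * (a + j)) (by omega) (by omega)
    have g2 := hH (c * q + k * (a + p + j)) (by omega) (by omega)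
    rw [hl _ (by omega), one_iff hk (by omega)] at g1 g2
    have g3 := hper (k * Bl k s J + (c * q + k * (a + j))) (by omega) (by omega)
    rw [show k * Bl k s J + (c * q + k * (a + j)) + k * p =
      k * Bl k s J + (c * q + k * (a + p + j)) by omega] at g3
    rw [Bool.eq_iff_iff]
    rw [← g1, ← g2]
    exact g3.symm
  have hdm := Nat.div_add_mod i0 q
  have hmod := Nat.mod_lt i0 (show 0 < q by omega)
  rw [Nat.mul_comm] at hdm
  by_cases hcase : i0 % q + 6 * (k * p) ≤ k * N
  · have h3 : i0 % q ≤ k * ((i0 % q + (k - 1)) / k) := by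
      have := Nat.div_add_mod (i0 % q + (k - 1)) k
      have := Nat.mod_lt (i0 % q + (k - 1)) hk
      omega
    have h4 : k * ((i0 % q + (k - 1)) / k) ≤ i0 % q + (k - 1) := Nat.mul_div_le _ _
    refine key (i0 / q) ((i0 % q + (k - 1)) / k) (by omega) (by omega) ?_
    have h5 : k * ((i0 % q + (k - 1)) / k + 5 * p) ≤ k * N := by
      rw [Nat.mul_add, show k * (5 * p) = 5 * (k * p) by ring]
      omega
    exact le_of_mul_le_mul_left h5 hk
  · refine key (i0 / q + 1) 0 ?_ ?_ (by omega)
    · rw [Nat.add_mul]; omega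
    · rw [Nat.add_mul]; omega

/-- a long period is a multiple of the period of the block -/
theorem claimB (hk : 1 < k) {J X p : ℕ}
    (h1 : k * Bl k s J ≤ X) (h2 : X + (k * p + qq k s J) ≤ k * Bl k s (J + 1))
    (hper : ∀ x, X ≤ x → x + k * p < X + (k * p + qq k s J) →
      (Hb k s (x + k * p) ↔ Hb k s x)) :
    qq k s J ∣ p := by
  obtain ⟨i0, rfl⟩ := Nat.exists_eq_add_of_le h1
  have hq : qq k s J = k * NN k s J + 1 := rfl
  set q := qq k s J with hqd
  set N := NN k s J with hNd
  have hq0 : 0 < q := by omega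
  have hN : 11 ≤ N := by rw [hNd]; unfold NN; omega
  have hkN : k * 11 ≤ k * N := Nat.mul_le_mul_left k hN
  -- the cyclic word is invariant
  have hcyc : ∀ e < q, (One k N ((e + k * p) % q) ↔ One k N e) := by
    intro e he
    have hr : (i0 + (e + (q - i0 % q)) % q) % q = e := by
      rw [Nat.add_mod_mod, ← Nat.mod_add_div i0 q]
      rw [show i0 % q + q * (i0 / q) + (e + (q - (i0 % q + q * (i0 / q)) % q)) =
        e + (q - (i0 % q + q * (i0 / q)) % q + i0 % q) + q * (i0 / q) by ring]
      rw [Nat.add_mul_mod_self_left, Nat.mod_add_div i0 q, Nat.sub_add_cancel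
        (Nat.mod_lt i0 hq0).le, Nat.add_mod_right, Nat.mod_eq_of_lt he]
    have hlt := Nat.mod_lt (e + (q - i0 % q)) hq0
    generalize (e + (q - i0 % q)) % q = u at hr hlt
    have g1 := Hb_iff k s (J := J) (i := i0 + u) (by omega)
    have g2 := Hb_iff k s (J := J) (i := i0 + u + k * p) (by omega)
    have g3 := hper (k * Bl k s J + (i0 + u)) (by omega) (by omega)
    rw [← hqd, hr] at g1
    rw [← hqd, Nat.add_mod, hr] at g2
    rw [← g1, ← g3]
    rw [show k * Bl k s J + (i0 + u) + k * p = k * Bl k s J + (i0 + u + k * p) by omega, g2]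
    rw [Nat.add_mod, Nat.mod_eq_of_lt he]
  have hcop : Nat.Coprime q k := by
    rw [hq]
    simp
  by_contra hnd
  have hd0 : (k * p) % q ≠ 0 := by
    intro h0
    exact hnd (hcop.dvd_of_dvd_mul_left (Nat.dvd_of_mod_eq_zero h0))
  have hdq := Nat.mod_lt (k * p) hq0
  have hcyc' : ∀ e < q, One k N e → One k N ((e + (k * p) % q) % q) := by
    intro e he h
    rw [Nat.add_mod_mod]
    exact (hcyc e he).2 h
  generalize (k * p) % q = d at hd0 hdq hcyc'
  -- the first and the last one
  have hone : One k N (k * 2) := (one_iff (by omega) (by omega)).2 yy_two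
  classical
  let O := (Finset.range q).filter (fun e => One k N e)
  have hO : O.Nonempty := ⟨k * 2, by
    rw [Finset.mem_filter, Finset.mem_range]
    exact ⟨by have := hone.lt (by omega); omega, hone⟩⟩
  have hmem : ∀ e, One k N e → e ∈ O := by
    intro e he
    rw [Finset.mem_filter, Finset.mem_range]
    exact ⟨by have := he.lt (by omega); omega, he⟩
  have hmin := Finset.min'_mem O hO
  have hmax := Finset.max'_mem O hO
  have hmin2 : ∀ e, One k N e → O.min' hO ≤ e := fun e he => Finset.min'_le _ _ (hmem e he)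
  have hmax2 : ∀ e, One k N e → e ≤ O.max' hO := fun e he => Finset.le_max' _ _ (hmem e he)
  generalize O.min' hO = a at hmin hmin2
  generalize O.max' hO = b at hmax hmax2
  rw [Finset.mem_filter, Finset.mem_range] at hmin hmax
  have ha := hcyc' a hmin.1 hmin.2
  have hb := hcyc' b hmax.1 hmax.2
  have ha1 : a + d < q := by
    by_contra hc
    push Not at hc
    rw [Nat.mod_eq_sub_mod hc, Nat.mod_eq_of_lt (by omega)] at ha
    have := hmin2 _ ha
    omega
  rw [Nat.mod_eq_of_lt ha1] at ha
  have hkd : k ∣ d := (Nat.dvd_add_right hmin.2.1).1 ha.1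
  have hb1 : q ≤ b + d := by
    by_contra hc
    push Not at hc
    rw [Nat.mod_eq_of_lt hc] at hb
    have := hmax2 _ hb
    omega
  rw [Nat.mod_eq_sub_mod hb1, Nat.mod_eq_of_lt (by omega)] at hb
  have h3 : k ∣ b + d := Nat.dvd_add hmax.2.1 hkd
  have h4 : k ∣ q := by
    have := Nat.dvd_sub h3 hb.1
    rwa [show b + d - (b + d - q) = q by omega] at this
  have h5 : k ∣ 1 := by
    rw [hq] at h4
    exact (Nat.dvd_add_right (Dvd.intro _ rfl)).1 h4
  have := Nat.le_of_dvd Nat.one_pos h5
  omega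

end Pool.Agent.R123.Ace.Low
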