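import Pool.Agent.R123.Ace.Low

/-!
# The lower bound: the word over `k + 1` letters
-/

set_option autoImplicit false

open scoped ENNReal NNReal

namespace Pool.Agent.R123.Ace.Low

variable {k s : ℕ}

theorem main_bound (hk : 1 < k) (hs : 20 ≤ s) {X E p : ℕ} (hp : 0 < p)
    (hE : X + (s + 13) * (k * p) ≤ E)
    (hper : ∀ x, X ≤ x → x + k * p < E → (Hb k s (x + k * p) ↔ Hb k s x)) : False := by
  have hk0 : 0 < k := by omega
  have hkp : 0 < k * p := Nat.mul_pos hk0 hp
  set P := k * p with hP
  have hE1 : X + (s * P + 13 * P) ≤ E := by rw [← Nat.add_mul]; exact hE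
  have hsP : 20 * P ≤ s * P := Nat.mul_le_mul_right P hs
  -- consequences of a small block
  have hq : ∀ J, NN k s J < 11 * p → qq k s J ≤ 11 * P ∧ k * Bl k s J ≤ P := by
    intro J hJ
    have h1 : k * (NN k s J + 1) ≤ k * (11 * p) := Nat.mul_le_mul_left k hJ
    rw [show k * (11 * p) = 11 * P by rw [hP]; ring, Nat.mul_add, Nat.mul_one] at h1
    constructor
    · unfold qq
      omega
    · apply Nat.mul_le_mul_left
      unfold NN at hJ
      omega
  have hblock : ∀ J, k * Bl k s (J + 1) = k * Bl k s J + s * (k * qq k s J) := by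
    intro J
    rw [Bl_succ]
    ring
  have hdvd : ∀ J, qq k s J ∣ p → s * (k * qq k s J) ≤ s * P := by
    intro J hJ
    exact Nat.mul_le_mul_left s (Nat.mul_le_mul_left k (Nat.le_of_dvd hp hJ))
  obtain ⟨J, hJ1, hJ2⟩ := exists_J k s hk0 (by omega) (E - 1)
  -- a long part inside a block
  have inside : ∀ J Y Z, k * Bl k s J ≤ Y → Z ≤ k * Bl k s (J + 1) → X ≤ Y → Z ≤ E →
      Y + 11 * P ≤ Z → NN k s J < 11 * p ∧ (Y + 12 * P ≤ Z → qq k s J ∣ p) := by
    intro J Y Z a1 a2 a3 a4 a5
    have b1 : NN k s J < 11 * p := claimA hk0 hp a1 (by rw [← hP]; omega)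
      (fun x hx1 hx2 => hper x (by omega) (by rw [← hP] at hx2; omega))
    refine ⟨b1, fun a6 => ?_⟩
    have b2 := (hq J b1).1
    exact claimB hk a1 (by rw [← hP]; omega)
      (fun x hx1 hx2 => hper x (by omega) (by rw [← hP] at hx2; omega))
  by_cases c1 : k * Bl k s J ≤ X
  · obtain ⟨-, h2⟩ := inside J X E c1 (by omega) le_rfl le_rfl (by omega)
    have h3 := hdvd J (h2 (by omega))
    have h4 := hblock J
    omega
  · push Not at c1
    by_cases c2 : k * Bl k s J + 11 * P ≤ E
    · obtain ⟨h1, -⟩ := inside J (k * Bl k s J) E le_rfl (by omega) c1.le le_rfl c2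
      have h5 := (hq J h1).2
      obtain ⟨-, h2⟩ := inside J (k * Bl k s J) E le_rfl (by omega) c1.le le_rfl c2
      have h3 := hdvd J (h2 (by omega))
      have h4 := hblock J
      omega
    · push Not at c2
      -- the block before
      rcases Nat.eq_zero_or_pos J with hJ0 | hJ0
      · subst hJ0
        simp [Bl] at c1
      · obtain ⟨J', rfl⟩ : ∃ J', J = J' + 1 := ⟨J - 1, by omega⟩
        by_cases c3 : k * Bl k s J' ≤ X
        · obtain ⟨-, h2⟩ := inside J' X (k * Bl k s (J' + 1)) c3 le_rfl le_rfl (by omega) (by omega)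
          have h3 := hdvd J' (h2 (by omega))
          have h4 := hblock J'
          omega
        · push Not at c3
          have h4 := hblock J'
          have h5 : k * Bl k s J' ≤ s * (k * qq k s J') := by
            have h6 : Bl k s J' ≤ qq k s J' := by
              unfold qq NN
              have : 1 * (11 * (Bl k s J' + 1)) ≤ k * (11 * (Bl k s J' + 1)) :=
                Nat.mul_le_mul_right _ hk0
              omega
            calc k * Bl k s J' ≤ 1 * (k * qq k s J') := by
                  rw [Nat.one_mul]; exact Nat.mul_le_mul_left k h6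
              _ ≤ s * (k * qq k s J') := Nat.mul_le_mul_right _ (by omega)
          obtain ⟨h1, -⟩ := inside J' (k * Bl k s J') (k * Bl k s (J' + 1)) le_rfl le_rfl c3.le
            (by omega) (by omega)
          have h7 := (hq J' h1).2
          obtain ⟨-, h2⟩ := inside J' (k * Bl k s J') (k * Bl k s (J' + 1)) le_rfl le_rfl c3.le
            (by omega) (by omega)
          have h3 := hdvd J' (h2 (by omega))
          omega

variable (k s)

open Classical in
/-- the word over `k + 1` letters: the letter `r + 1` codes a block with a one in the place `r` and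
the letter `0` codes a block without ones -/
noncomputable def ww (n : ℕ) : Fin (k + 1) :=
  if h : ∃ r : Fin k, Hb k s (k * n + r) then (Classical.choose h).succ else 0

variable {k s}

theorem ww_iff (hk : 0 < k) (hs : 0 < s) (n r : ℕ) (hr : r < k) :
    ((ww k s n : Fin (k + 1)) : ℕ) = r + 1 ↔ Hb k s (k * n + r) := by
  unfold ww
  constructor
  · intro h
    split_ifs at h with h1
    · have h2 := Classical.choose_spec h1
      rw [Fin.val_succ] at h
      rwa [show ((Classical.choose h1 : Fin k) : ℕ) = r by omega] at h2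
    · simp at h
  · intro h
    have h1 : ∃ r : Fin k, Hb k s (k * n + r) := ⟨⟨r, hr⟩, h⟩
    rw [dif_pos h1, Fin.val_succ]
    have h2 := Classical.choose_spec h1
    rw [Hb_unique hk hs (Classical.choose h1).2 hr h2 h]

/-- the images of the letters -/
def ff {B : Type} (k : ℕ) (z o : B) (a : Fin (k + 1)) : List B :=
  (List.range k).map (fun j => if (a : ℕ) = j + 1 then o else z)

theorem ff_length {B : Type} (z o : B) (a : Fin (k + 1)) : (ff k z o a).length = k := by
  simp [ff]

theorem ff_get {B : Type} (z o : B) (a : Fin (k + 1)) (j : ℕ) (hj : j < k) :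
    (ff k z o a)[j]? = some (if (a : ℕ) = j + 1 then o else z) := by
  simp [ff, hj]

theorem ff_inj {B : Type} {z o : B} (hzo : z ≠ o) {a b : Fin (k + 1)}
    (h : ff k z o a = ff k z o b) : a = b := by
  have key : ∀ a b : Fin (k + 1), ff k z o a = ff k z o b → (a : ℕ) ≠ 0 → a = b := by
    intro a b h ha
    have h1 := congrArg (fun l : List B => l[(a : ℕ) - 1]?) h
    have h2 : (a : ℕ) - 1 < k := by have := a.2; omega
    simp only [ff_get z o _ _ h2] at h1
    rw [if_pos (by omega)] at h1
    have h3 := Option.some.inj h1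
    split_ifs at h3 with h4
    · apply Fin.ext
      omega
    · exact absurd h3.symm hzo
  by_cases ha : (a : ℕ) = 0
  · by_cases hb : (b : ℕ) = 0
    · apply Fin.ext
      omega
    · exact (key b a h.symm hb).symm
  · exact key a b h ha

theorem ff_injMorphism {B : Type} {z o : B} (hk : 0 < k) (hzo : z ≠ o) :
    InjMorphism (ff k z o) := by
  intro x
  induction x with
  | nil =>
    intro y h
    cases y with
    | nil => rfl
    | cons b y =>
      exfalso
      have := congrArg List.length h
      simp [List.flatMap_cons, ff_length] at this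
      omega
  | cons a x ih =>
    intro y h
    cases y with
    | nil =>
      exfalso
      have := congrArg List.length h
      simp [List.flatMap_cons, ff_length] at this
      omega
    | cons b y =>
      simp only [List.flatMap_cons] at h
      obtain ⟨h1, h2⟩ := List.append_inj h (by rw [ff_length, ff_length])
      rw [ff_inj hzo h1, ih h2]

theorem pos_ff {B : Type} (z o : B) (w : ℕ → Fin (k + 1)) (n : ℕ) :
    pos (ff k z o) w n = k * n := by
  induction n with
  | zero => simp [pos, fac]
  | succ n ih => rw [pos_succ, ih, ff_length, Nat.mul_succ]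

theorem image_ff {B : Type} [Nonempty B] {z o : B} (hk : 0 < k) (hzo : z ≠ o)
    (w : ℕ → Fin (k + 1)) (n r : ℕ) (hr : r < k) :
    image (ff k z o) w (k * n + r) = if (w n : ℕ) = r + 1 then o else z := by
  have h1 := block (ff_injMorphism hk hzo) w n
  have h2 := ff_get z o (w n) r hr
  rw [h1, fac_getElem? _ _ _ _ (by rw [ff_length]; exact hr), pos_ff] at h2
  exact Option.some.inj h2

open Classical in
theorem image_ww {B : Type} [Nonempty B] {z o : B} (hk : 0 < k) (hs : 0 < s) (hzo : z ≠ o)
    (x : ℕ) : image (ff k z o) (ww k s) x = if Hb k s x then o else z := by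
  have h1 := image_ff hk hzo (ww k s) (x / k) (x % k) (Nat.mod_lt x hk)
  rw [Nat.div_add_mod] at h1
  rw [h1]
  have h2 := ww_iff hk hs (x / k) (x % k) (Nat.mod_lt x hk)
  rw [Nat.div_add_mod] at h2
  simp only [h2]

theorem ace_image_ge {B : Type} [Nonempty B] {z o : B} (hk : 0 < k) (hs : 0 < s) (hzo : z ≠ o) :
    ((k * s : ℕ) : ℝ≥0∞) ≤ ACE (image (ff k z o) (ww k s)) := by
  classical
  refine Filter.le_limsup_of_frequently_le ?_
  rw [Filter.frequently_atTop]
  intro a
  refine ⟨k * s * qq k s a, ?_, ?_⟩
  · have h1 := le_Bl k s hs a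
    have h2 : Bl k s a ≤ qq k s a := by
      unfold qq NN
      have : 1 * (11 * (Bl k s a + 1)) ≤ k * (11 * (Bl k s a + 1)) := Nat.mul_le_mul_right _ hk
      omega
    calc a ≤ 1 * qq k s a := by omega
      _ ≤ k * s * qq k s a := Nat.mul_le_mul_right _ (Nat.mul_pos hk hs)
  · have hq0 : 0 < qq k s a := Nat.succ_pos _
    have hV : IsPower (fac (image (ff k z o) (ww k s)) (k * Bl k s a) (k * s * qq k s a))
        (fac (image (ff k z o) (ww k s)) (k * Bl k s a) (qq k s a)) := by
      refine ⟨?_, ?_⟩
      · intro h0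
        have := congrArg List.length h0
        rw [fac_length] at this
        simp at this
        omega
      · intro i hi
        rw [fac_length] at hi ⊢
        have hm := Nat.mod_lt i hq0
        rw [fac_getElem? _ _ _ _ hi, fac_getElem? _ _ _ _ hm, image_ww hk hs hzo,
          image_ww hk hs hzo]
        have hb : k * Bl k s (a + 1) = k * Bl k s a + k * s * qq k s a := by
          rw [Bl_succ]; ring
        have hml : i % qq k s a ≤ i := Nat.mod_le _ _
        have e1 := Hb_iff k s (J := a) (i := i) (by omega)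
        have e2 := Hb_iff k s (J := a) (i := i % qq k s a) (by omega)
        rw [Nat.mod_mod] at e2
        simp only [e1, e2]
    have h3 := expo_le_iSup _ _ _ _ hV
    rw [fac_length] at h3
    refine le_trans ?_ h3
    rw [ENNReal.le_div_iff_mul_le (Or.inl (by exact_mod_cast hq0.ne'))
      (Or.inl (ENNReal.natCast_ne_top _))]
    push_cast
    exact le_rfl

theorem ace_ww_le (hk : 1 < k) (hs : 20 ≤ s) : ACE (ww k s) ≤ ((s + 13 : ℕ) : ℝ≥0∞) := by
  have hk0 : 0 < k := by omega
  refine Filter.limsup_le_of_le (h := ?_)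
  rw [Filter.eventually_atTop]
  refine ⟨0, fun m _ => iSup_le fun n => iSup₂_le fun v hv => ?_⟩
  rw [fac_length]
  apply ENNReal.div_le_of_le_mul
  have hv0 : 0 < v.length := List.length_pos_iff.2 hv.1
  have hget : ∀ i < m, some (ww k s (n + i)) = v[i % v.length]? := by
    intro i hi
    rw [← fac_getElem? (ww k s) n m i hi]
    exact hv.2 i (by rw [fac_length]; exact hi)
  have hper : ∀ i, i + v.length < m → ww k s (n + (i + v.length)) = ww k s (n + i) := by
    intro i hi
    apply Option.some.inj
    rw [hget _ hi, hget i (by omega), Nat.add_mod_right]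
  by_contra hcon
  push Not at hcon
  have hcon' : (s + 13) * v.length < m := by exact_mod_cast hcon
  refine main_bound (X := k * n) (E := k * n + k * m) hk hs hv0 ?_ ?_
  · have : k * ((s + 13) * v.length) ≤ k * m := Nat.mul_le_mul_left k hcon'.le
    rw [show (s + 13) * (k * v.length) = k * ((s + 13) * v.length) by ring]
    omega
  · intro x hx1 hx2
    obtain ⟨y, rfl⟩ := Nat.exists_eq_add_of_le hx1
    have hyd := Nat.div_add_mod y k
    have hym := Nat.mod_lt y hk0
    have e1 := ww_iff hk0 (show 0 < s by omega) (n + y / k) (y % k) hym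
    have e2 := ww_iff hk0 (show 0 < s by omega) (n + (y / k + v.length)) (y % k) hym
    have h1 : y / k + v.length < m := by
      have h2 : k * (y / k + v.length) < k * m := by
        rw [Nat.mul_add]
        omega
      exact lt_of_mul_lt_mul_left h2 (Nat.zero_le k)
    rw [hper _ h1] at e2
    rw [show k * (n + y / k) + y % k = k * n + y by rw [Nat.mul_add]; omega] at e1
    rw [show k * (n + (y / k + v.length)) + y % k = k * n + y + k * v.length by
      rw [Nat.mul_add, Nat.mul_add]; omega] at e2
    rw [← e1, ← e2]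

theorem S_ge_aux (B : Type) [Nonempty B] [Nontrivial B] (hk : 1 < k) (hs : 20 ≤ s) :
    ((k * s : ℕ) : ℝ≥0∞) ≤ S B (k + 1) * ((s + 13 : ℕ) : ℝ≥0∞) := by
  obtain ⟨z, o, hzo⟩ := exists_pair_ne B
  have hk0 : 0 < k := by omega
  have h1 := ace_image_ge (k := k) (s := s) hk0 (by omega) hzo
  have h2 := ace_ww_le hk hs
  have h3 : ACE (ww k s) ≠ ⊤ := ne_top_of_le_ne_top (ENNReal.natCast_ne_top _) h2
  have h4 : ACE (image (ff k z o) (ww k s)) ≤ ACEinj B (ww k s) := by
    unfold ACEinj
    exact le_iSup₂ (f := fun (f : Fin (k + 1) → List B) (_ : InjMorphism f) =>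
      ACE (image f (ww k s))) (ff k z o) (ff_injMorphism hk0 hzo)
  have h5 : ACEinj B (ww k s) / ACE (ww k s) ≤ S B (k + 1) := by
    unfold S
    exact le_iSup₂ (f := fun (w : ℕ → Fin (k + 1)) (_ : ACE w ≠ ⊤) => ACEinj B w / ACE w)
      (ww k s) h3
  have h6 : ACE (ww k s) ≠ 0 := by
    have := one_le_ACE (ww k s)
    intro h0
    rw [h0] at this
    simp at this
  rw [ENNReal.div_le_iff h6 h3] at h5
  calc ((k * s : ℕ) : ℝ≥0∞) ≤ ACEinj B (ww k s) := h1.trans h4
    _ ≤ S B (k + 1) * ACE (ww k s) := h5
    _ ≤ S B (k + 1) * ((s + 13 : ℕ) : ℝ≥0∞) := mul_le_mul_right h2 _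

theorem S_ge (B : Type) [Nonempty B] [Nontrivial B] (hk : 1 < k) :
    (k : ℝ≥0∞) ≤ S B (k + 1) := by
  by_contra hcon
  push Not at hcon
  have htop : S B (k + 1) ≠ ⊤ := ne_top_of_lt hcon
  have hreal : ∀ s : ℕ, 20 ≤ s → (k : ℝ) * s ≤ (S B (k + 1)).toReal * (s + 13) := by
    intro s hs
    have h1 := S_ge_aux B hk hs
    have h2 := ENNReal.toReal_mono (ENNReal.mul_ne_top htop (ENNReal.natCast_ne_top _)) h1
    rw [ENNReal.toReal_mul, ENNReal.toReal_natCast, ENNReal.toReal_natCast] at h2
    push_cast at h2
    exact h2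
  have hlt : (S B (k + 1)).toReal < k := by
    have := (ENNReal.toReal_lt_toReal htop (ENNReal.natCast_ne_top k)).2 hcon
    rwa [ENNReal.toReal_natCast] at this
  set σ := (S B (k + 1)).toReal with hσ
  obtain ⟨s, hs⟩ := exists_nat_gt (13 * σ / (k - σ))
  have h1 := hreal (max s 20) (le_max_right _ _)
  have h2 : (13 * σ / (k - σ)) < ((max s 20 : ℕ) : ℝ) :=
    lt_of_lt_of_le hs (by exact_mod_cast le_max_left _ _)
  rw [div_lt_iff₀ (by linarith)] at h2
  nlinarith

end Pool.Agent.R123.Ace.Low
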