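import Pool.Agent.R123.Ace.Core

/-!
# The linear upper bound
-/

set_option autoImplicit false

open scoped ENNReal NNReal

namespace Pool.Agent.R123.Ace

variable {A B : Type}

/-- many windows with the same offset give a power of exponent at least `t` -/
theorem windows [Nonempty B] {f : A → List B} (h : InjMorphism f) {L : ℕ}
    (hL : ∀ a, (f a).length ≤ L)
    (w : ℕ → A) (s l q : ℕ) (hq : 0 < q)
    (hper : ∀ i, i + q < l → image f w (s + (i + q)) = image f w (s + i))
    (c o : ℕ) (hoc : o ≤ c) (t : ℕ) (ht : 0 < t) (I : Finset ℕ) (hI : t < I.card) (j : ℕ → ℕ)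
    (hj : ∀ i ∈ I, pos f w (j i) + o = s + (c + i * q)) (hl : ∀ i ∈ I, c + i * q ≤ l) :
    ∃ j0 M V, IsPower (fac w j0 M) V ∧ t * V.length ≤ M ∧ t ≤ M ∧ t * q ≤ L * M := by
  classical
  let e : ℕ → ℕ := fun r => if hr : r < I.card then I.orderEmbOfFin rfl ⟨r, hr⟩ else 0
  have heI : ∀ r ≤ t, e r ∈ I := by
    intro r hr
    simp only [e]
    rw [dif_pos (show r < I.card by omega)]
    exact Finset.orderEmbOfFin_mem I rfl _
  have he : ∀ r < t, e r < e (r + 1) := by
    intro r hr
    simp only [e]
    rw [dif_pos (show r < I.card by omega), dif_pos (show r + 1 < I.card by omega)]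
    exact (I.orderEmbOfFin rfl).strictMono (by simp [Fin.lt_def])
  have he0 : ∀ r ≤ t, e 0 + r ≤ e r := by
    intro r
    induction r with
    | zero => intro _; simp
    | succ r ih =>
      intro hr
      have := ih (by omega)
      have := he r (by omega)
      omega
  have hpos : ∀ r ≤ t, pos f w (j (e r)) + o = s + (c + e r * q) := fun r hr => hj _ (heI r hr)
  have hJ : ∀ r < t, j (e r) < j (e (r + 1)) := by
    intro r hr
    rw [← (pos_strictMono h w).lt_iff_lt]
    have h1 := hpos r hr.le
    have h2 := hpos (r + 1) hr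
    have h3 : (e r + 1) * q ≤ e (r + 1) * q := Nat.mul_le_mul_right _ (he r hr)
    rw [Nat.add_mul] at h3
    omega
  have hJ0 : ∀ r ≤ t, j (e 0) + r ≤ j (e r) := by
    intro r
    induction r with
    | zero => intro _; simp
    | succ r ih =>
      intro hr
      have := ih (by omega)
      have := hJ r (by omega)
      omega
  obtain ⟨V, hV1, hV2⟩ := core h w s l q hq hper t ht (fun r => j (e r)) hJ
    (by have := hpos 0 (by omega); omega)
    (by have := hpos t le_rfl; have := hl _ (heI t le_rfl); omega)
    (by
      intro r hr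
      have h1 := hpos r hr
      have h2 := hpos 0 (by omega)
      have h3 : e 0 * q ≤ e r * q := Nat.mul_le_mul_right _ (by have := he0 r hr; omega)
      refine ⟨e r - e 0, ?_⟩
      rw [Nat.mul_comm q, Nat.sub_mul]
      omega)
  refine ⟨j (e 0), j (e t) - j (e 0), V, hV1, hV2, ?_, ?_⟩
  · have := hJ0 t le_rfl
    omega
  · have h1 := pos_add_le (f := f) hL w (j (e 0)) (j (e t) - j (e 0))
    rw [show j (e 0) + (j (e t) - j (e 0)) = j (e t) by
      have := hJ0 t le_rfl
      omega] at h1
    have h2 := hpos 0 (by omega)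
    have h3 := hpos t le_rfl
    have h4 : (e 0 + t) * q ≤ e t * q := Nat.mul_le_mul_right _ (he0 t le_rfl)
    rw [Nat.add_mul] at h4
    omega

theorem block_eq [Nonempty B] {f : A → List B} (h : InjMorphism f) (w : ℕ → A) {n n' : ℕ}
    (hn : w n = w n') {r : ℕ} (hr : r < (f (w n)).length) :
    image f w (pos f w n + r) = image f w (pos f w n' + r) := by
  have h1 := block h w n
  have h2 := block h w n'
  rw [← hn, h1, fac_length] at h2
  have h3 := congrArg (fun x : List B => x[r]?) h2
  rw [fac_getElem? _ _ _ _ hr, fac_getElem? _ _ _ _ hr] at h3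
  exact Option.some.inj h3

theorem bound [Nonempty B] [Fintype A] {f : A → List B} (h : InjMorphism f) {L : ℕ}
    (hL : ∀ a, (f a).length ≤ L) (w : ℕ → A) (K m0 : ℕ) (hK : 0 < K)
    (hw : ∀ M ≥ m0, ∀ j V, IsPower (fac w j M) V → M < K * V.length)
    (q0 : ℕ) (h1 : L + 1 ≤ q0) (h2 : m0 * L ≤ q0) (s l q : ℕ) (hq : 0 < q)
    (hper : ∀ i, i + q < l → image f w (s + (i + q)) = image f w (s + i))
    (hmin : ∀ d, 0 < d → d < q → ∃ i, i + d < l ∧ image f w (s + (i + d)) ≠ image f w (s + i))
    (hl : 2 * L + (L * max K m0) * q0 ≤ l) :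
    q0 ≤ q ∧ l < (Fintype.card A * K + 1) * q + 2 * L := by
  classical
  have hL0 : 0 < L := lt_of_lt_of_le (h.length_pos (w 0)) (hL _)
  choose jb hjb1 hjb2 using exists_block h w
  have hoL : ∀ x, x - pos f w (jb x) < L := fun x => by
    have := hjb1 x
    have := hjb2 x
    have := hL (w (jb x))
    omega
  constructor
  · by_contra hqq
    push Not at hqq
    set K' := max K m0 with hK'
    have hKK' : K ≤ K' := le_max_left _ _
    have hmK' : m0 ≤ K' := le_max_right _ _
    obtain ⟨o, -, ho⟩ := Finset.exists_lt_card_fiber_of_mul_lt_card_of_maps_to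
      (s := Finset.range (L * K' + 1)) (t := Finset.range L)
      (f := fun i => (s + (L + i * q)) - pos f w (jb (s + (L + i * q)))) (n := K')
      (fun i _ => Finset.mem_range.2 (hoL _)) (by simp)
    have ho' := ho
    obtain ⟨i0, hi0⟩ := Finset.card_pos.1 (lt_of_le_of_lt (Nat.zero_le _) ho')
    have hoL' : o < L := by
      rw [← (Finset.mem_filter.1 hi0).2]
      exact hoL _
    obtain ⟨j0, M, V, hV, hV1, hM, -⟩ := windows h hL w s l q hq hper L o hoL'.le K' (by omega) _ ho
      (fun i => jb (s + (L + i * q)))
      (by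
        intro i hi
        have := (Finset.mem_filter.1 hi).2
        have := hjb1 (s + (L + i * q))
        omega)
      (by
        intro i hi
        have h3 := Finset.mem_range.1 (Finset.mem_filter.1 hi).1
        have h4 : i * q ≤ L * K' * q0 := Nat.mul_le_mul (by omega) hqq.le
        omega)
    have h5 := hw M (by omega) j0 V hV
    have h6 : K * V.length ≤ K' * V.length := Nat.mul_le_mul_right _ hKK'
    omega
  · by_contra hll
    push Not at hll
    by_cases hqq : q < q0
    · -- impossible by the first part
      exfalso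
      set K' := max K m0 with hK'
      have hKK' : K ≤ K' := le_max_left _ _
      have hmK' : m0 ≤ K' := le_max_right _ _
      obtain ⟨o, -, ho⟩ := Finset.exists_lt_card_fiber_of_mul_lt_card_of_maps_to
        (s := Finset.range (L * K' + 1)) (t := Finset.range L)
        (f := fun i => (s + (L + i * q)) - pos f w (jb (s + (L + i * q)))) (n := K')
        (fun i _ => Finset.mem_range.2 (hoL _)) (by simp)
      have ho' := ho
      obtain ⟨i0, hi0⟩ := Finset.card_pos.1 (lt_of_le_of_lt (Nat.zero_le _) ho')
      have hoL' : o < L := by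
        rw [← (Finset.mem_filter.1 hi0).2]
        exact hoL _
      obtain ⟨j0, M, V, hV, hV1, hM, -⟩ := windows h hL w s l q hq hper L o hoL'.le K' (by omega)
        _ ho (fun i => jb (s + (L + i * q)))
        (by
          intro i hi
          have := (Finset.mem_filter.1 hi).2
          have := hjb1 (s + (L + i * q))
          omega)
        (by
          intro i hi
          have h3 := Finset.mem_range.1 (Finset.mem_filter.1 hi).1
          have h4 : i * q ≤ L * K' * q0 := Nat.mul_le_mul (by omega) hqq.le
          omega)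
      have h5 := hw M (by omega) j0 V hV
      have h6 : K * V.length ≤ K' * V.length := Nat.mul_le_mul_right _ hKK'
      omega
    · push Not at hqq
      let T : ℕ → B := fun i => image f w (s + i % q)
      have hTper : ∀ i, T (i + q) = T i := by intro i; simp only [T]; rw [Nat.add_mod_right]
      have hTe : ∀ i < l, image f w (s + i) = T i := fun i hi =>
        per_region (T := fun i => image f w (s + i)) hq hper i hi
      obtain ⟨c, hc⟩ := critical T q hq hTper (by
        intro d hd hdq
        obtain ⟨i, hi, hi'⟩ := hmin d hd hdq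
        refine ⟨i, ?_⟩
        rw [← hTe _ hi, ← hTe i (by omega)]
        exact hi')
      set c0 := L + (c + (q - 1) * L) % q with hc0
      have hc0q : c0 % q = c % q := by
        rw [hc0, Nat.add_mod_mod, show L + (c + (q - 1) * L) = c + q * L by
          have : L ≤ q * L := Nat.le_mul_of_pos_left L hq
          rw [Nat.sub_mul, Nat.one_mul]
          omega]
        simp
      have hc0L : c0 < L + q := by
        have := Nat.mod_lt (c + (q - 1) * L) hq
        omega
      have hc0L' : L ≤ c0 := by omega
      have hxc : ∀ i, (c0 + i * q) % q = c % q := by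
        intro i
        rw [Nat.add_mul_mod_self_right, hc0q]
      have hxl : ∀ i < Fintype.card A * K + 1, c0 + i * q + L < l := by
        intro i hi
        have h3 : i * q ≤ Fintype.card A * K * q := Nat.mul_le_mul_right _ (by omega)
        rw [Nat.add_mul] at hll
        omega
      have hTm : ∀ x y, x % q = y % q → T x = T y := by
        intro x y hxy
        simp only [T]
        rw [hxy]
      -- the offset of a letter is unique
      have huniq : ∀ i < Fintype.card A * K + 1, ∀ i' < Fintype.card A * K + 1,
          w (jb (s + (c0 + i * q))) = w (jb (s + (c0 + i' * q))) →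
          ¬ ((s + (c0 + i * q)) - pos f w (jb (s + (c0 + i * q))) <
            (s + (c0 + i' * q)) - pos f w (jb (s + (c0 + i' * q)))) := by
        intro i hi i' hi' hww hlt
        have a1 := hjb1 (s + (c0 + i * q))
        have a2 := hjb2 (s + (c0 + i * q))
        have b1 := hjb1 (s + (c0 + i' * q))
        have b2 := hjb2 (s + (c0 + i' * q))
        have a3 := hxl i hi
        have b3 := hxl i' hi'
        have hLa := hoL (s + (c0 + i' * q))
        rw [hww] at a2
        have hLe := hL (w (jb (s + (c0 + i' * q))))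
        have a4 := hxc i
        have b4 := hxc i'
        have hblk := fun r (hr : r < (f (w (jb (s + (c0 + i * q))))).length) =>
          block_eq h w hww hr
        rw [hww] at hblk
        generalize hx : c0 + i * q = x at *
        generalize hx' : c0 + i' * q = x' at *
        generalize jb (s + x) = j at *
        generalize jb (s + x') = j' at *
        obtain ⟨k, hk, hk'⟩ := hc ((s + x' - pos f w j') - (s + x - pos f w j)) (by omega)
          (by omega) x' b4 (by omega)
        apply hk'
        have e1 : T (x' + k) = T (x + k) := by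
          apply hTm
          rw [Nat.add_mod, b4, ← a4, ← Nat.add_mod]
        rw [e1, ← hTe _ (by omega), ← hTe _ (by omega)]
        have e2 := hblk ((s + x - pos f w j) + k) (by omega)
        rw [show pos f w j + (s + x - pos f w j + k) = s + (x + k) by omega] at e2
        rw [e2]
        congr 1
        omega
      obtain ⟨a, -, ha⟩ := Finset.exists_lt_card_fiber_of_mul_lt_card_of_maps_to
        (s := Finset.range (Fintype.card A * K + 1)) (t := (Finset.univ : Finset A))
        (f := fun i => w (jb (s + (c0 + i * q)))) (n := K)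
        (fun i _ => Finset.mem_univ _) (by simp)
      have ha' := ha
      obtain ⟨i0, hi0⟩ := Finset.card_pos.1 (lt_of_le_of_lt (Nat.zero_le _) ha')
      rw [Finset.mem_filter, Finset.mem_range] at hi0
      obtain ⟨j0, M, V, hV, hV1, hM, hM'⟩ := windows h hL w s l q hq hper c0
        ((s + (c0 + i0 * q)) - pos f w (jb (s + (c0 + i0 * q))))
        ((hoL _).le.trans hc0L') K hK _ ha (fun i => jb (s + (c0 + i * q)))
        (by
          intro i hi
          rw [Finset.mem_filter, Finset.mem_range] at hi
          have e1 := huniq i hi.1 i0 hi0.1 (by rw [hi.2, hi0.2])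
          have e2 := huniq i0 hi0.1 i hi.1 (by rw [hi.2, hi0.2])
          have := hjb1 (s + (c0 + i * q))
          omega)
        (by
          intro i hi
          rw [Finset.mem_filter, Finset.mem_range] at hi
          have := hxl i hi.1
          omega)
      have h5 : m0 ≤ M := by
        have h6 : m0 * L ≤ M * L := by
          have : q ≤ K * q := Nat.le_mul_of_pos_left q hK
          rw [Nat.mul_comm M L]
          omega
        exact Nat.le_of_mul_le_mul_right h6 hL0
      have h6 := hw M h5 j0 V hV
      omega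

theorem expo_le_iSup (w : ℕ → A) (j M : ℕ) (V : List A) (hV : IsPower (fac w j M) V) :
    (M : ℝ≥0∞) / (V.length : ℝ≥0∞) ≤ ⨆ n, expo (fac w n M) := by
  refine le_trans ?_ (le_iSup (fun n => expo (fac w n M)) j)
  unfold expo
  have := le_iSup₂ (f := fun (v : List A) (_ : IsPower (fac w j M) v) =>
    ((fac w j M).length : ℝ≥0∞) / (v.length : ℝ≥0∞)) V hV
  rw [fac_length] at this ⊢
  exact this

/-- the upper bound -/
theorem ace_image_le [Nonempty B] [Fintype A] {f : A → List B} (h : InjMorphism f) (w : ℕ → A)
    (K : ℕ) (hK : ACE w < K) : ACE (image f w) ≤ Fintype.card A * K + 1 := by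
  classical
  have hK0 : 0 < K := by
    rcases Nat.eq_zero_or_pos K with h0 | h0
    · subst h0
      simp at hK
    · exact h0
  obtain ⟨m0, hm0⟩ := Filter.eventually_atTop.1 (Filter.eventually_lt_of_limsup_lt hK)
  have hw : ∀ M ≥ m0, ∀ j V, IsPower (fac w j M) V → M < K * V.length := by
    intro M hM j V hV
    have h1 := lt_of_le_of_lt (expo_le_iSup w j M V hV) (hm0 M hM)
    have hV0 : (V.length : ℝ≥0∞) ≠ 0 := by
      have := List.length_pos_iff.2 hV.1
      exact_mod_cast this.ne'
    rw [ENNReal.div_lt_iff (Or.inl hV0) (Or.inl (ENNReal.natCast_ne_top _))] at h1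
    exact_mod_cast h1
  let L := Finset.univ.sup (fun a => (f a).length)
  have hL : ∀ a, (f a).length ≤ L := fun a =>
    Finset.le_sup (f := fun a => (f a).length) (Finset.mem_univ a)
  apply ENNReal.le_of_forall_pos_le_add
  intro ε hε _
  set q0 := max (L + 1) (max (m0 * L) ⌈(2 * L : ℝ≥0) / ε⌉₊) with hq0
  have h1 : L + 1 ≤ q0 := le_max_left _ _
  have h2 : m0 * L ≤ q0 := (le_max_left _ _).trans (le_max_right _ _)
  have h3 : (2 * L : ℝ≥0) ≤ ε * q0 := by
    have h4 : (2 * L : ℝ≥0) / ε ≤ q0 := by
      refine (Nat.le_ceil _).trans ?_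
      have h5 : ⌈(2 * L : ℝ≥0) / ε⌉₊ ≤ q0 := (le_max_right _ _).trans (le_max_right (L + 1) _)
      exact Nat.cast_le.2 h5
    rw [div_le_iff₀ hε] at h4
    rw [mul_comm ε]
    exact h4
  refine Filter.limsup_le_of_le (h := ?_)
  rw [Filter.eventually_atTop]
  refine ⟨2 * L + (L * max K m0) * q0, fun m hm => iSup_le fun s => iSup₂_le fun v hv => ?_⟩
  rw [fac_length]
  have hv0 : 0 < v.length := List.length_pos_iff.2 hv.1
  have hget : ∀ i < m, some (image f w (s + i)) = v[i % v.length]? := by
    intro i hi
    rw [← fac_getElem? (image f w) s m i hi]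
    exact hv.2 i (by rw [fac_length]; exact hi)
  have hex : ∃ q, 0 < q ∧ ∀ i, i + q < m → image f w (s + (i + q)) = image f w (s + i) := by
    refine ⟨v.length, hv0, fun i hi => ?_⟩
    apply Option.some.inj
    rw [hget _ hi, hget i (by omega), Nat.add_mod_right]
  have hq := Nat.find_spec hex
  have hqmin : ∀ d, 0 < d → d < Nat.find hex →
      ∃ i, i + d < m ∧ image f w (s + (i + d)) ≠ image f w (s + i) := by
    intro d hd hdq
    have := Nat.find_min hex hdq
    push Not at this
    exact this hd
  have hqv : Nat.find hex ≤ v.length := by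
    apply Nat.find_min' hex
    refine ⟨hv0, fun i hi => ?_⟩
    apply Option.some.inj
    rw [hget _ hi, hget i (by omega), Nat.add_mod_right]
  obtain ⟨h5, h6⟩ := bound h hL w K m0 hK0 hw q0 h1 h2 s m _ hq.1 hq.2 hqmin hm
  apply ENNReal.div_le_of_le_mul
  have h7 : (m : ℝ≥0) ≤ ((Fintype.card A * K + 1 : ℕ) + ε) * (v.length : ℝ≥0) := by
    have h8 : (m : ℝ≥0) ≤ ((Fintype.card A * K + 1 : ℕ) : ℝ≥0) * (Nat.find hex : ℝ≥0) + 2 * L := by
      exact_mod_cast h6.le
    have h9 : ε * (q0 : ℝ≥0) ≤ ε * (Nat.find hex : ℝ≥0) :=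
      mul_le_mul_of_nonneg_left (by exact_mod_cast h5) zero_le
    calc (m : ℝ≥0) ≤ ((Fintype.card A * K + 1 : ℕ) : ℝ≥0) * (Nat.find hex : ℝ≥0) + 2 * L := h8
      _ ≤ ((Fintype.card A * K + 1 : ℕ) : ℝ≥0) * (Nat.find hex : ℝ≥0) +
          ε * (Nat.find hex : ℝ≥0) := add_le_add le_rfl (h3.trans h9)
      _ = ((Fintype.card A * K + 1 : ℕ) + ε) * (Nat.find hex : ℝ≥0) := by ring
      _ ≤ _ := mul_le_mul_of_nonneg_left (by exact_mod_cast hqv) zero_le
  have h8 : ((m : ℝ≥0) : ℝ≥0∞) ≤ ((((Fintype.card A * K + 1 : ℕ) + ε) * (v.length : ℝ≥0) : ℝ≥0) : ℝ≥0∞) :=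
    ENNReal.coe_le_coe.2 h7
  push_cast at h8
  exact h8

end Pool.Agent.R123.Ace
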